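import Pool.Agent.E8helper74.BA.Cell4

/-!
# The strata of a system of homogeneous equations
-/

set_option autoImplicit false
set_option linter.unusedSectionVars false

open MvPolynomial

attribute [local instance] Classical.propDecidable

namespace Pool.Agent.E8helper74.BG

open Pool.Agent.E8helper74.BA

section cell

variable {R : Type} [CommRing R] {σ κ : Type} [Fintype σ] [Fintype κ] (f : κ → MvPolynomial σ R)
variable (B : Type) [CommRing B] [Algebra (MvPolynomial σ R) B] [Algebra R B]
  [IsScalarTower R (MvPolynomial σ R) B]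
variable {K : Type} [AddCommGroup K] (p : HH R σ B →+ K) (s : K →+ HH R σ B)
  (hs : ∀ a, p (s a) = a)
variable (hB : IsStratum (Ideal.span (Set.range f)) (fns f : Set (MvPolynomial σ R)) B)
variable (hp : ∀ a ∈ Lam f B, p a = 0)

include hp hB

theorem gg_f' (l : κ) : gg f B p s hs (f l) = 0 := by
  have h1 := g_f f B (isMon_hom f B p s hs) (gg f B p s hs) (gg_X f B p s hs)
    (fun l m hm hu => by
      rw [gg_C, alg_zero f B p hB l m hm hu, AddMonoidAlgebra.single_zero]) l
  have hz : (back (isMon_mon B) s (Cal f B p)) (gg f B p s hs (f l)) = 0 := by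
    rw [← RingHom.comp_apply, back_gg f B p s hs hB]
    exact hB.zero (f l) (Ideal.subset_span ⟨l, rfl⟩)
  by_cases he : supE f B l = ∅
  · rw [h1, he, Finset.sum_empty]
  · obtain ⟨m0, hm0⟩ := Finset.nonempty_iff_ne_empty.mpr he
    have h2 : ∃ c : Cal f B p, gg f B p s hs (f l) =
        AddMonoidAlgebra.single (p (res (uq R B) m0)) c := by
      rw [h1]
      have h3 : ∀ m ∈ supE f B l, ∃ c : Cal f B p, gg f B p s hs (C (coeff m (f l))) *
          hom' p s hs (Cal f B p) (mon_mem f B p) (res (uq R B) m) =
          AddMonoidAlgebra.single (p (res (uq R B) m0)) c := by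
        intro m hm
        have h4 : p (res (uq R B) m) = p (res (uq R B) m0) := by
          rw [← sub_eq_zero, ← map_sub]
          exact hp _ (AddSubgroup.subset_closure ⟨l, m, hm, m0, hm0, rfl⟩)
        refine ⟨algebraMap R (Cal f B p) (coeff m (f l)) *
          ⟨mon B (res (uq R B) m - s (p (res (uq R B) m))), mon_mem f B p _ (p_sub p s hs _)⟩, ?_⟩
        rw [gg_C]
        unfold hom'
        rw [AddMonoidAlgebra.single_mul_single, zero_add]
        exact congrArg (fun a => AddMonoidAlgebra.single a _) h4
      choose! c hc using h3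
      refine ⟨∑ m ∈ supE f B l, c m, ?_⟩
      rw [Finset.sum_congr rfl hc]
      exact (map_sum (AddMonoidAlgebra.singleAddHom (p (res (uq R B) m0))) c (supE f B l)).symm
    obtain ⟨c, hc⟩ := h2
    rw [hc, back_single] at hz
    have h5 : (c : B) = 0 := by
      have hu := mon_unit (isMon_mon B) (s (p (res (uq R B) m0)))
      exact hu.mul_left_eq_zero.mp hz
    have h6 : c = 0 := Subtype.ext h5
    rw [hc, h6, AddMonoidAlgebra.single_zero]

include s hs

/-- the isomorphism, with its effect on the part of degree zero -/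
theorem cell_iso' [Nontrivial B] : ∃ e : B ≃+* AddMonoidAlgebra (Cal f B p) K,
    ∀ c : Cal f B p, e c = AddMonoidAlgebra.single 0 c := by
  obtain ⟨Θ, hΘ⟩ := hB.lift (AddMonoidAlgebra (Cal f B p) K) (gg f B p s hs) (by
      have hle : Ideal.span (Set.range f) ≤ RingHom.ker (gg f B p s hs) := by
        rw [Ideal.span_le]
        rintro _ ⟨l, rfl⟩
        exact gg_f' f B p s hs hB hp l
      intro a ha
      exact hle ha) (by
      intro a ha h0
      rcases mem_fns f ha with ⟨i, rfl⟩ | ⟨l, m, hm, rfl⟩
      · rw [gg_X, dif_neg]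
        intro hi
        unfold uq at hi
        rw [h0] at hi
        exact not_isUnit_zero hi
      · rw [gg_C]
        have h1 : algebraMap R (Cal f B p) (coeff m (f l)) = 0 := by
          apply Subtype.ext
          change algebraMap R B (coeff m (f l)) = 0
          rw [alg_eq (σ := σ), h0]
        rw [h1, AddMonoidAlgebra.single_zero]) (by
      intro a ha hu
      rcases mem_fns f ha with ⟨i, rfl⟩ | ⟨l, m, hm, rfl⟩
      · rw [gg_X, dif_pos (show uq R B i from hu)]
        exact mon_unit (isMon_hom f B p s hs) _
      · rw [gg_C]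
        obtain ⟨b, hb⟩ := cof_exists f B p hB l m hm hu
        have h1 : IsUnit (algebraMap R (Cal f B p) (coeff m (f l))) := IsUnit.of_mul_eq_one b hb
        exact h1.map (AddMonoidAlgebra.singleZeroRingHom (R := Cal f B p) (M := K)))
  have hΘa : ∀ a : MvPolynomial σ R, Θ (algebraMap _ B a) = gg f B p s hs a :=
    fun a => RingHom.congr_fun hΘ a
  have h1 : ∀ a : HH R σ B, Θ (mon B a) = hom' p s hs (Cal f B p) (mon_mem f B p) a := by
    intro a
    refine IsMon.ext (h := fun a => Θ (mon B a)) ?_ (isMon_hom f B p s hs) ?_ a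
    · refine ⟨?_, fun a b => ?_⟩
      · rw [(isMon_mon B).zero, map_one]
      · rw [(isMon_mon B).add, map_mul]
    · rintro ⟨i, hi⟩
      rw [mon_single, hΘa, gg_X, dif_pos hi]
  have hR : ∀ r : R, Θ (algebraMap R B r) =
      AddMonoidAlgebra.single 0 (algebraMap R (Cal f B p) r) := by
    intro r
    rw [alg_eq (σ := σ), hΘa, gg_C]
  have h2 : ∀ c : Cal f B p, Θ (c : B) = AddMonoidAlgebra.single 0 c := by
    rintro ⟨c, hc⟩
    change Θ c = _
    induction hc using Algebra.adjoin_induction with
    | mem x hx =>
      rcases hx with ⟨l, m, hm, hb⟩ | ⟨a, ha, rfl⟩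
      · have h3 := congrArg Θ hb
        rw [map_mul, map_one, hR] at h3
        have h4 : (AddMonoidAlgebra.single 0 (algebraMap R (Cal f B p) (coeff m (f l))) :
            AddMonoidAlgebra (Cal f B p) K) * AddMonoidAlgebra.single 0
              (⟨x, cof_mem f B p x ⟨l, m, hm, hb⟩⟩ : Cal f B p) = 1 := by
          rw [AddMonoidAlgebra.single_mul_single, zero_add, AddMonoidAlgebra.one_def]
          congr 1
          exact Subtype.ext hb
        have hu : IsUnit (AddMonoidAlgebra.single 0 (algebraMap R (Cal f B p) (coeff m (f l))) :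
            AddMonoidAlgebra (Cal f B p) K) := IsUnit.of_mul_eq_one _ h4
        exact hu.mul_right_injective (h3.trans h4.symm)
      · rw [h1]
        unfold hom'
        congr 1
        apply Subtype.ext
        change mon B (a - s (p a)) = mon B a
        rw [ha, map_zero, sub_zero]
    | algebraMap r => exact hR r
    | add x y hx hy ihx ihy =>
      rw [map_add, ihx, ihy, ← AddMonoidAlgebra.single_add]
      rfl
    | mul x y hx hy ihx ihy =>
      rw [map_mul, ihx, ihy, AddMonoidAlgebra.single_mul_single, zero_add]
      rfl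
  have hid : ∀ g : B →+* B, (∀ a : HH R σ B, g (mon B a) = mon B a) →
      (∀ c : Cal f B p, g c = c) → g = RingHom.id B := by
    intro g hg1 hg2
    refine hB.ext B g (RingHom.id B) (MvPolynomial.ringHom_ext ?_ ?_)
    · intro r
      rw [RingHom.comp_apply, RingHom.comp_apply, RingHom.id_apply, ← alg_eq]
      exact hg2 (algebraMap R (Cal f B p) r)
    · intro i
      rw [RingHom.comp_apply, RingHom.comp_apply, RingHom.id_apply, phi_X f B hB]
      by_cases hi : uq R B i
      · rw [dif_pos hi, hg1]
      · rw [dif_neg hi, map_zero]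
  have hcomp : (back (isMon_mon B) s (Cal f B p)).comp Θ = RingHom.id B := by
    apply hid
    · intro a
      rw [RingHom.comp_apply, h1, back_hom]
    · intro c
      rw [RingHom.comp_apply, h2, back_single, map_zero, (isMon_mon B).zero, mul_one]
  refine ⟨RingEquiv.ofBijective Θ ⟨?_, ?_⟩, h2⟩
  · intro x y hxy
    have := congrArg (back (isMon_mon B) s (Cal f B p)) hxy
    rw [← RingHom.comp_apply, ← RingHom.comp_apply, hcomp] at this
    exact this
  · intro z
    induction z using AddMonoidAlgebra.induction_on with
    | of m =>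
      refine ⟨mon B (s m), ?_⟩
      rw [h1]
      unfold hom'
      change _ = AddMonoidAlgebra.single m (1 : Cal f B p)
      congr 1
      · exact hs m
      · apply Subtype.ext
        change mon B (s m - s (p (s m))) = 1
        rw [hs, sub_self, (isMon_mon B).zero]
    | add x y hx hy =>
      obtain ⟨x', rfl⟩ := hx
      obtain ⟨y', rfl⟩ := hy
      exact ⟨x' + y', map_add _ _ _⟩
    | smul c x hx =>
      obtain ⟨x', rfl⟩ := hx
      refine ⟨c * x', ?_⟩
      rw [map_mul, h2, Algebra.smul_def]
      rfl

end cell

end Pool.Agent.E8helper74.BG
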