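import Pool.Agent.E8helper74.BG.Main

/-!
# Graded rings of small complexity, without coordinates
-/

set_option autoImplicit false
set_option linter.unusedSectionVars false

open MvPolynomial

namespace Pool.Agent.E8helper74.BG

open Pool.Agent.E8helper74.BA

/-- the rank of the group generated by the degrees of the homogeneous elements which are not in `P` -/
noncomputable def rank {A : Type} [CommRing A] {m : ℕ} (𝒜 : (Fin m → ℤ) → AddSubgroup A)
    (P : Ideal A) : ℕ :=
  Module.finrank ℤ (Submodule.span ℤ {lam : Fin m → ℤ | ∃ a ∈ 𝒜 lam, a ∉ P})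

section rank

variable {m : ℕ}

/-- the map to the rational vector space -/
def castQ (m : ℕ) : (Fin m → ℤ) →ₗ[ℤ] (Fin m → ℚ) where
  toFun v := fun j => (v j : ℚ)
  map_add' v w := by
    funext j
    simp
  map_smul' c v := by
    funext j
    simp

theorem castQ_inj : Function.Injective (castQ m) := by
  intro v w h
  funext j
  have := congrFun h j
  change (v j : ℚ) = (w j : ℚ) at this
  exact_mod_cast this

theorem finrank_le (S : Set (Fin m → ℤ)) (T : Submodule ℚ (Fin m → ℚ))
    (h : ∀ v ∈ S, castQ m v ∈ T) :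
    Module.finrank ℤ (Submodule.span ℤ S) ≤ Module.finrank ℚ T := by
  have hfree : Module.Free ℤ (Submodule.span ℤ S) := Module.free_of_finite_type_torsion_free'
  let b := Module.finBasis ℤ (Submodule.span ℤ S)
  have h1 : LinearIndependent ℤ (fun i => castQ m (b i : Fin m → ℤ)) := by
    have h2 := b.linearIndependent
    have h3 : LinearIndependent ℤ (((castQ m) ∘ₗ (Submodule.span ℤ S).subtype) ∘ b) := by
      refine h2.map' _ ?_
      rw [LinearMap.ker_eq_bot]
      exact castQ_inj.comp (Submodule.span ℤ S).injective_subtype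
    exact h3
  have h4 : LinearIndependent ℚ (fun i => castQ m (b i : Fin m → ℤ)) :=
    (LinearIndependent.iff_fractionRing ℤ ℚ).mp h1
  have h5 : ∀ v ∈ Submodule.span ℤ S, castQ m v ∈ T := by
    intro v hv
    induction hv using Submodule.span_induction with
    | mem v hv => exact h v hv
    | zero =>
      rw [map_zero]
      exact zero_mem _
    | add v w _ _ ihv ihw =>
      rw [map_add]
      exact add_mem ihv ihw
    | smul c v _ ihv =>
      rw [map_smul]
      exact zsmul_mem ihv c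
  let v : Fin (Module.finrank ℤ (Submodule.span ℤ S)) → T := fun i => ⟨castQ m (b i), h5 _ (b i).2⟩
  have h6 : LinearIndependent ℚ v := by
    rw [← LinearMap.linearIndependent_iff (T.subtype) T.ker_subtype]
    exact h4
  have h7 := h6.fintype_card_le_finrank
  rwa [Fintype.card_fin] at h7

end rank

section pres

variable {A : Type} [CommRing A] {m : ℕ} (𝒜 : (Fin m → ℤ) → AddSubgroup A) [GradedRing 𝒜]
  {σ : Type} [Fintype σ] (δ : σ → (Fin m → ℤ)) (x : σ → A) (hx : ∀ i, x i ∈ 𝒜 (δ i))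

include hx

theorem aeval_mono (e : σ →₀ ℕ) (c : ℤ) : aeval x (monomial e c) ∈ 𝒜 (Finsupp.weight δ e) := by
  classical
  rw [aeval_monomial, Finsupp.prod_fintype _ _ (fun i => pow_zero _), Finsupp.weight_apply,
    Finsupp.sum_fintype e (fun i c => c • δ i) (fun i => zero_smul ℕ _)]
  have h1 : ∏ i, x i ^ e i ∈ 𝒜 (∑ i, e i • δ i) :=
    SetLike.prod_mem_graded 𝒜 _ _ fun i _ => SetLike.pow_mem_graded _ (hx i)
  have h2 : algebraMap ℤ A c * ∏ i, x i ^ e i = c • ∏ i, x i ^ e i := by
    rw [zsmul_eq_mul]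
    rfl
  rw [h2]
  exact zsmul_mem h1 c

theorem decomp (p : MvPolynomial σ ℤ) (ν : Fin m → ℤ) :
    aeval x (weightedHomogeneousComponent δ ν p) = (DirectSum.decompose 𝒜 (aeval x p) ν : A) := by
  classical
  induction p using MvPolynomial.induction_on' with
  | monomial e c =>
    have h0 := aeval_mono 𝒜 δ x hx e c
    by_cases h : Finsupp.weight δ e = ν
    · rw [← h, DirectSum.decompose_of_mem_same 𝒜 h0,
        (isWeightedHomogeneous_monomial δ e c rfl).weightedHomogeneousComponent_same]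
    · rw [DirectSum.decompose_of_mem_ne 𝒜 h0 h,
        (isWeightedHomogeneous_monomial δ e c rfl).weightedHomogeneousComponent_ne _ (Ne.symm h),
        map_zero]
  | add p q hp hq =>
    rw [map_add, map_add, map_add, hp, hq, DirectSum.decompose_add]
    rfl

theorem hom_comap (I : Ideal A) (hI : I.IsHomogeneous 𝒜) :
    Hom δ (I.comap (aeval x : MvPolynomial σ ℤ →ₐ[ℤ] A)) := by
  intro p hp ν
  change aeval x _ ∈ I
  rw [decomp 𝒜 δ x hx]
  exact hI ν hp

end pres

theorem sum_comp {σ : Type} {m : ℕ} (δ : σ → (Fin m → ℤ)) (p : MvPolynomial σ ℤ) :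
    p = ∑ ν ∈ p.support.image (Finsupp.weight δ), weightedHomogeneousComponent δ ν p := by
  classical
  ext e
  rw [coeff_sum]
  simp only [coeff_weightedHomogeneousComponent]
  by_cases h : e ∈ p.support
  · rw [Finset.sum_eq_single (Finsupp.weight δ e)]
    · rw [if_pos rfl]
    · intro ν _ hν
      rw [if_neg (Ne.symm hν)]
    · intro h2
      exact absurd (Finset.mem_image_of_mem _ h) h2
  · have h0 : coeff e p = 0 := notMem_support_iff.mp h
    rw [h0]
    simp

theorem exists_gens {σ : Type} [Fintype σ] {m : ℕ} (δ : σ → (Fin m → ℤ))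
    (J : Ideal (MvPolynomial σ ℤ)) (hJ : Hom δ J) : ∃ (κ : Type) (_ : Fintype κ)
      (f : κ → MvPolynomial σ ℤ), (∀ l, ∃ lam, IsWeightedHomogeneous δ (f l) lam) ∧
        Ideal.span (Set.range f) = J := by
  classical
  obtain ⟨G, hG⟩ := (inferInstance : IsNoetherianRing (MvPolynomial σ ℤ)).noetherian J
  let T : Finset (MvPolynomial σ ℤ) := G.biUnion fun p =>
    (p.support.image (Finsupp.weight δ)).image fun ν => weightedHomogeneousComponent δ ν p
  have hT : ∀ q : {q // q ∈ T}, ∃ p ∈ G, ∃ ν ∈ p.support.image (Finsupp.weight δ),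
      weightedHomogeneousComponent δ ν p = q.1 := by
    intro q
    obtain ⟨p, hp, hq⟩ := Finset.mem_biUnion.mp q.2
    obtain ⟨ν, hν, hq2⟩ := Finset.mem_image.mp hq
    exact ⟨p, hp, ν, hν, hq2⟩
  refine ⟨{q // q ∈ T}, inferInstance, fun q => q.1, ?_, ?_⟩
  · intro q
    obtain ⟨p, hp, ν, hν, hq⟩ := hT q
    refine ⟨ν, ?_⟩
    change IsWeightedHomogeneous δ q.1 ν
    rw [← hq]
    exact weightedHomogeneousComponent_isWeightedHomogeneous _ _
  · apply le_antisymm
    · rw [Ideal.span_le]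
      rintro _ ⟨q, rfl⟩
      obtain ⟨p, hp, ν, hν, hq⟩ := hT q
      change q.1 ∈ J
      rw [← hq]
      refine hJ _ ?_ _
      rw [← hG]
      exact Submodule.subset_span hp
    · rw [← hG]
      refine Submodule.span_le.mpr ?_
      intro p hp
      change p ∈ Ideal.span _
      rw [sum_comp δ p]
      refine sum_mem fun ν hν => Ideal.subset_span
        ⟨⟨weightedHomogeneousComponent δ ν p, ?_⟩, rfl⟩
      exact Finset.mem_biUnion.mpr ⟨p, hp, Finset.mem_image.mpr ⟨ν, hν, rfl⟩⟩

section pres2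

variable {A : Type} [CommRing A] {m : ℕ} (𝒜 : (Fin m → ℤ) → AddSubgroup A) [GradedRing 𝒜]
  {σ : Type} [Fintype σ] (δ : σ → (Fin m → ℤ)) (x : σ → A) (hx : ∀ i, x i ∈ 𝒜 (δ i))

include hx in
theorem rank_le (hs : Function.Surjective (aeval x : MvPolynomial σ ℤ →ₐ[ℤ] A)) (P : Ideal A)
    (hP : P.IsPrime) :
    rank 𝒜 P ≤ rk δ (P.comap ((aeval x : MvPolynomial σ ℤ →ₐ[ℤ] A) : MvPolynomial σ ℤ →+* A)) := by
  classical
  unfold rank rk
  apply finrank_le
  rintro lam ⟨a, ha, haP⟩
  obtain ⟨p, rfl⟩ := hs a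
  have h1 : aeval x (weightedHomogeneousComponent δ lam p) = aeval x p := by
    rw [decomp 𝒜 δ x hx, DirectSum.decompose_of_mem_same 𝒜 ha]
  have h2 : ∃ e ∈ (weightedHomogeneousComponent δ lam p).support,
      aeval x (monomial e (coeff e (weightedHomogeneousComponent δ lam p))) ∉ P := by
    by_contra hn
    push Not at hn
    apply haP
    rw [← h1, (weightedHomogeneousComponent δ lam p).as_sum, map_sum]
    exact sum_mem hn
  obtain ⟨e, he, heP⟩ := h2
  have h3 : Finsupp.weight δ e = lam := by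
    by_contra h
    rw [mem_support_iff, coeff_weightedHomogeneousComponent, if_neg h] at he
    exact he rfl
  rw [aeval_monomial, Finsupp.prod_fintype _ _ (fun i => pow_zero _)] at heP
  have h4 : ∀ i, e i ≠ 0 → x i ∉ P := by
    intro i hi hxi
    apply heP
    refine Ideal.mul_mem_left _ _ ?_
    exact Ideal.mem_of_dvd _ (Finset.dvd_prod_of_mem _ (Finset.mem_univ i))
      (Ideal.pow_mem_of_mem _ hxi _ (Nat.pos_of_ne_zero hi))
  rw [← h3, Finsupp.weight_apply,
    Finsupp.sum_fintype e (fun i c => c • δ i) (fun i => zero_smul ℕ _), map_sum]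
  refine sum_mem fun i _ => ?_
  by_cases hi : e i = 0
  · rw [hi, zero_smul, map_zero]
    exact zero_mem _
  · rw [map_nsmul]
    have h5 : X i ∉ P.comap ((aeval x : MvPolynomial σ ℤ →ₐ[ℤ] A) : MvPolynomial σ ℤ →+* A) := by
      change aeval x (X i) ∉ P
      rw [aeval_X]
      exact h4 i hi
    have h6 : castQ m (δ i) ∈ Submodule.span ℚ {v : Fin m → ℚ | ∃ i, X i ∉ P.comap
        ((aeval x : MvPolynomial σ ℤ →ₐ[ℤ] A) : MvPolynomial σ ℤ →+* A) ∧
          v = fun j => (δ i j : ℚ)} := Submodule.subset_span ⟨i, h5, rfl⟩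
    exact nsmul_mem h6 _

end pres2

theorem graded_ring {F : ∀ (B : Type) [CommRing B], Prop} {d : ℕ} (hF : Good F d) (A : Type)
    [CommRing A] [Algebra.FiniteType ℤ A] {m : ℕ} (𝒜 : (Fin m → ℤ) → AddSubgroup A) [GradedRing 𝒜]
    (h : ∀ P ∈ minimalPrimes A, ringKrullDim (A ⧸ P) ≤ ((d + rank 𝒜 P : ℕ) : WithBot ℕ∞))
    (I : Ideal A) (hI : I.IsHomogeneous 𝒜) : F (A ⧸ I) := by
  classical
  obtain ⟨G, hG⟩ := (inferInstance : Algebra.FiniteType ℤ A).out
  let σ : Type := (a : G) × {ν // ν ∈ (DirectSum.decompose 𝒜 a.1).support}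
  let x : σ → A := fun i => (DirectSum.decompose 𝒜 i.1.1 i.2.1 : A)
  let δ : σ → (Fin m → ℤ) := fun i => i.2.1
  have hx : ∀ i, x i ∈ 𝒜 (δ i) := fun i => (DirectSum.decompose 𝒜 i.1.1 i.2.1).2
  let φ : MvPolynomial σ ℤ →ₐ[ℤ] A := aeval x
  have hφ : Function.Surjective φ := by
    rw [← AlgHom.range_eq_top, eq_top_iff, ← hG, Algebra.adjoin_le_iff]
    intro a ha
    rw [← DirectSum.sum_support_decompose 𝒜 a]
    have h1 : ∀ ν ∈ (DirectSum.decompose 𝒜 a).support,
        ((DirectSum.decompose 𝒜 a ν : 𝒜 ν) : A) ∈ φ.range := by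
      intro ν hν
      let i : σ := ⟨⟨a, ha⟩, ⟨ν, hν⟩⟩
      have h2 : φ (X i) = x i := aeval_X x i
      exact ⟨X i, h2⟩
    exact sum_mem h1
  have hφ' : Function.Surjective (φ : MvPolynomial σ ℤ →+* A) := hφ
  have hJ0 := hom_comap 𝒜 δ x hx I hI
  obtain ⟨κ, _, f, hf, hspan⟩ := exists_gens δ _ hJ0
  have hJ : Hom δ (RingHom.ker (φ : MvPolynomial σ ℤ →+* A)) :=
    hom_comap 𝒜 δ x hx ⊥ (Ideal.IsHomogeneous.bot 𝒜)
  have hmain : F (MvPolynomial σ ℤ ⧸ Ideal.span (Set.range f)) := by
    refine graded_main f δ hF hf (RingHom.ker (φ : MvPolynomial σ ℤ →+* A)) hJ ?_ ?_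
    · rw [hspan]
      intro p hp
      change φ p ∈ I
      have : φ p = 0 := hp
      rw [this]
      exact zero_mem _
    · intro P hP
      have h1 : RingHom.ker (φ : MvPolynomial σ ℤ →+* A) =
          (⊥ : Ideal A).comap (φ : MvPolynomial σ ℤ →+* A) := rfl
      rw [h1, Ideal.comap_minimalPrimes_eq_of_surjective hφ'] at hP
      obtain ⟨P', hP', rfl⟩ := hP
      have h2 := h P' hP'
      have h3 := rank_le 𝒜 δ x hx hφ P' hP'.1.1
      let g : MvPolynomial σ ℤ →+* A ⧸ P' := (Ideal.Quotient.mk P').comp (φ : MvPolynomial σ ℤ →+* A)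
      have hg : Function.Surjective g := Ideal.Quotient.mk_surjective.comp hφ
      have hk : P'.comap (φ : MvPolynomial σ ℤ →+* A) = RingHom.ker g := by
        ext p
        change φ p ∈ P' ↔ Ideal.Quotient.mk P' (φ p) = 0
        rw [Ideal.Quotient.eq_zero_iff_mem]
      rw [ringKrullDim_eq_of_ringEquiv ((Ideal.quotEquivOfEq hk).trans
        (RingHom.quotientKerEquivOfSurjective hg))]
      refine h2.trans ?_
      have h4 : d + rank 𝒜 P' ≤ d + rk δ (P'.comap (φ : MvPolynomial σ ℤ →+* A)) :=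
        Nat.add_le_add_left h3 d
      exact_mod_cast h4
  let g : MvPolynomial σ ℤ →+* A ⧸ I := (Ideal.Quotient.mk I).comp (φ : MvPolynomial σ ℤ →+* A)
  have hg : Function.Surjective g := Ideal.Quotient.mk_surjective.comp hφ
  have hk : Ideal.span (Set.range f) = RingHom.ker g := by
    rw [hspan]
    ext p
    change φ p ∈ I ↔ Ideal.Quotient.mk I (φ p) = 0
    rw [Ideal.Quotient.eq_zero_iff_mem]
  have hft : @Algebra.FiniteType ℤ (MvPolynomial σ ℤ ⧸ Ideal.span (Set.range f)) _ _
      (Ring.toIntAlgebra _) := by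
    have := ftZ (C := ℤ) (D := MvPolynomial σ ℤ) inferInstance
    exact ftZ (C := MvPolynomial σ ℤ) inferInstance
  exact hF.iso _ _ ((Ideal.quotEquivOfEq hk).trans (RingHom.quotientKerEquivOfSurjective hg)) hmain

end Pool.Agent.E8helper74.BG
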