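import Pool.Agent.E8helper74.BG.Trd

/-!
# Homogeneous prime ideals of polynomial rings, and algebraically independent elements
-/

set_option autoImplicit false
set_option linter.unusedSectionVars false

open MvPolynomial

namespace Pool.Agent.E8helper74.BG

section hom

variable {R : Type} [CommRing R] {σ : Type} {m : ℕ} (δ : σ → (Fin m → ℤ))

/-- the ideal is homogeneous -/
def Hom (P : Ideal (MvPolynomial σ R)) : Prop :=
  ∀ p ∈ P, ∀ ν, weightedHomogeneousComponent δ ν p ∈ P

theorem hom_sum {P : Ideal (MvPolynomial σ R)} (hP : Hom δ P) {ι : Type} (T : Finset ι)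
    (a : ι → MvPolynomial σ R) (w : ι → (Fin m → ℤ))
    (ha : ∀ i ∈ T, IsWeightedHomogeneous δ (a i) (w i)) (h : ∑ i ∈ T, a i ∈ P) (ν : Fin m → ℤ) :
    ∑ i ∈ T.filter (fun i => w i = ν), a i ∈ P := by
  have h1 := hP _ h ν
  rw [map_sum] at h1
  rw [Finset.sum_filter]
  convert h1 using 1
  apply Finset.sum_congr rfl
  intro i hi
  by_cases hw : w i = ν
  · rw [if_pos hw, ← hw, (ha i hi).weightedHomogeneousComponent_same]
  · rw [if_neg hw, (ha i hi).weightedHomogeneousComponent_ne _ (Ne.symm hw)]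

theorem hom_minimal {J : Ideal (MvPolynomial σ R)} (hJ : Hom δ J) {P : Ideal (MvPolynomial σ R)}
    (hP : P ∈ J.minimalPrimes) : Hom δ P := by
  let δ' : σ → Lex (Fin m → ℤ) := fun i => toLex (δ i)
  have hw : ∀ d : σ →₀ ℕ, Finsupp.weight δ' d = toLex (Finsupp.weight δ d) := by
    intro d
    rw [Finsupp.weight_apply, Finsupp.weight_apply]
    rfl
  have hc : ∀ (ν : Fin m → ℤ) (p : MvPolynomial σ R),
      weightedHomogeneousComponent δ' (toLex ν) p = weightedHomogeneousComponent δ ν p := by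
    intro ν p
    ext d
    rw [coeff_weightedHomogeneousComponent, coeff_weightedHomogeneousComponent, hw]
    simp only [EmbeddingLike.apply_eq_iff_eq]
  let _ : DecidableEq (Lex (Fin m → ℤ)) := LinearOrder.toDecidableEq
  let 𝒜 := weightedHomogeneousSubmodule R δ'
  let _ : GradedAlgebra 𝒜 := weightedGradedAlgebra R δ'
  have hiff : ∀ I : Ideal (MvPolynomial σ R), I.IsHomogeneous 𝒜 ↔ Hom δ I := by
    intro I
    have hd : ∀ (ν : Lex (Fin m → ℤ)) (p : MvPolynomial σ R),
        ((DirectSum.decompose 𝒜 p ν : 𝒜 ν) : MvPolynomial σ R) =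
          weightedHomogeneousComponent δ' ν p := by
      intro ν p
      exact weightedDecomposition.decompose'_apply R δ' p ν
    constructor
    · intro h p hp ν
      rw [← hc, ← hd]
      exact h (toLex ν) hp
    · intro h ν p hp
      rw [hd]
      have := h p hp (ofLex ν)
      rw [← hc] at this
      exact this
  have hPp : P.IsPrime := hP.1.1
  have h1 : (P.homogeneousCore 𝒜).toIdeal.IsPrime := hPp.homogeneousCore
  have h2 : J ≤ (P.homogeneousCore 𝒜).toIdeal := by
    rw [← ((hiff J).mpr hJ).toIdeal_homogeneousCore_eq_self]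
    exact Ideal.homogeneousCore_mono 𝒜 hP.1.2
  have h3 : P ≤ (P.homogeneousCore 𝒜).toIdeal :=
    hP.2 ⟨h1, h2⟩ (Ideal.toIdeal_homogeneousCore_le 𝒜 P)
  rw [← hiff]
  rw [le_antisymm h3 (Ideal.toIdeal_homogeneousCore_le 𝒜 P)]
  exact (P.homogeneousCore 𝒜).isHomogeneous

end hom

end Pool.Agent.E8helper74.BG
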