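import Mathlib

/-!
# Chains of prime ideals and algebraically independent elements
-/

set_option autoImplicit false
set_option linter.unusedSectionVars false

open MvPolynomial

attribute [local instance] Classical.propDecidable

namespace Pool.Agent.E8helper74.BG

section eps

variable {D : Type} [CommRing D]

/-- `0` if the ideal contains a positive integer, `1` otherwise -/
noncomputable def eps (q : Ideal D) : ℕ := if ∃ n : ℕ, 0 < n ∧ (n : D) ∈ q then 0 else 1

theorem eps_le_one (q : Ideal D) : eps q ≤ 1 := by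
  unfold eps
  split_ifs <;> omega

theorem eps_anti {q q' : Ideal D} (h : q ≤ q') : eps q' ≤ eps q := by
  unfold eps
  by_cases h1 : ∃ n : ℕ, 0 < n ∧ (n : D) ∈ q
  · obtain ⟨n, hn, hq⟩ := h1
    rw [if_pos ⟨n, hn, h hq⟩]
    exact Nat.zero_le _
  · rw [if_neg h1]
    split_ifs <;> omega

theorem eps_prime {q : Ideal D} (hq : q.IsPrime) (h : eps q = 0) :
    ∃ p : ℕ, p.Prime ∧ (p : D) ∈ q := by
  unfold eps at h
  split_ifs at h with h1
  obtain ⟨n, hn, hnq⟩ := h1
  induction n using Nat.strong_induction_on with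
  | _ n ih =>
    by_cases h1 : n = 1
    · subst h1
      rw [Nat.cast_one] at hnq
      exact absurd ((Ideal.eq_top_iff_one _).mpr hnq) hq.ne_top
    · obtain ⟨p, hp, k, rfl⟩ := Nat.exists_prime_and_dvd h1
      rw [Nat.cast_mul] at hnq
      rcases hq.mem_or_mem hnq with h2 | h2
      · exact ⟨p, hp, h2⟩
      · have hk : 0 < k := Nat.pos_of_mul_pos_left hn
        refine ih k ?_ hk h2
        have := hp.two_le
        nlinarith

theorem int_dvd {q : Ideal D} (hq : q.IsPrime) {p : ℕ} (hp : p.Prime) (hpq : (p : D) ∈ q) {c : ℤ}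
    (hc : (c : D) ∈ q) : (p : ℤ) ∣ c := by
  by_contra h
  have h1 : IsCoprime (p : ℤ) c := (Int.isCoprime_iff_gcd_eq_one.mpr (by
    rw [Int.gcd_comm, Int.gcd_eq_natAbs, Int.natAbs_natCast, Nat.gcd_comm]
    refine (Nat.Prime.coprime_iff_not_dvd hp).mpr ?_
    intro h2
    exact h (Int.natCast_dvd.mpr h2)))
  obtain ⟨a, b, hab⟩ := h1
  have h2 : ((a * (p : ℤ) + b * c : ℤ) : D) ∈ q := by
    push_cast
    exact add_mem (Ideal.mul_mem_left _ _ hpq) (Ideal.mul_mem_left _ _ hc)
  rw [hab, Int.cast_one] at h2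
  exact hq.ne_top ((Ideal.eq_top_iff_one _).mpr h2)

theorem int_zero {q : Ideal D} (h : eps q = 1) {c : ℤ} (hc : (c : D) ∈ q) : c = 0 := by
  by_contra h0
  unfold eps at h
  split_ifs at h with h1
  apply h1
  refine ⟨c.natAbs, Int.natAbs_pos.mpr h0, ?_⟩
  rcases Int.natAbs_eq c with h2 | h2
  · have : ((c.natAbs : ℕ) : D) = (c : D) := by
      conv_rhs => rw [h2]
      rw [Int.cast_natCast]
    rw [this]
    exact hc
  · have : ((c.natAbs : ℕ) : D) = -(c : D) := by
      conv_rhs => rw [h2]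
      rw [Int.cast_neg, Int.cast_natCast, neg_neg]
    rw [this]
    exact neg_mem hc

theorem int_mem {q q' : Ideal D} (hq : q.IsPrime) (hq' : q'.IsPrime) (hle : q ≤ q')
    (he : eps q = eps q') {c : ℤ} (hc : (c : D) ∈ q') : (c : D) ∈ q := by
  by_cases h : eps q' = 0
  · obtain ⟨p, hp, hpq⟩ := eps_prime hq (he.trans h)
    obtain ⟨k, rfl⟩ := int_dvd hq' hp (hle hpq) hc
    rw [Int.cast_mul, Int.cast_natCast]
    exact Ideal.mul_mem_right _ _ hpq
  · have h1 : eps q' = 1 := by
      have := eps_le_one q'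
      omega
    rw [int_zero h1 hc, Int.cast_zero]
    exact zero_mem _

/-- Descent: a set of relations which is closed under division by integers outside of `q`. -/
theorem descent {ι : Type} {q q' : Ideal D} (hq : q.IsPrime) (hq' : q'.IsPrime) (hle : q ≤ q')
    (Φ : Set (MvPolynomial ι ℤ))
    (h1 : ∀ (n : ℤ) (Q : MvPolynomial ι ℤ), (n : D) ∉ q → n • Q ∈ Φ → Q ∈ Φ)
    (h2 : ∀ Q ∈ Φ, ∀ m, ((coeff m Q : ℤ) : D) ∈ q') (Q : MvPolynomial ι ℤ) (hQ : Q ∈ Φ)
    (m : ι →₀ ℕ) : ((coeff m Q : ℤ) : D) ∈ q := by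
  by_cases he : eps q = eps q'
  · exact int_mem hq hq' hle he (h2 Q hQ m)
  · have h3 := eps_anti hle
    have h4 := eps_le_one q
    have h5 : eps q = 1 := by omega
    have h6 : eps q' = 0 := by omega
    obtain ⟨p, hp, hpq⟩ := eps_prime hq' h6
    have hpn : ((p : ℤ) : D) ∉ q := by
      intro h
      have := int_zero h5 h
      have := hp.pos
      omega
    -- all coefficients are divisible by all powers of `p`
    have h7 : ∀ (k : ℕ) (Q : MvPolynomial ι ℤ), Q ∈ Φ → ∀ m, ((p : ℤ) ^ k) ∣ coeff m Q := by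
      intro k
      induction k with
      | zero =>
        intro Q _ m
        rw [pow_zero]
        exact one_dvd _
      | succ k ih =>
        intro Q hQ m
        have h8 : ∀ m, (p : ℤ) ∣ coeff m Q := fun m => int_dvd hq' hp hpq (h2 Q hQ m)
        have h9 : C (p : ℤ) ∣ Q := by
          rw [C_dvd_iff_dvd_coeff]
          exact h8
        obtain ⟨Q', rfl⟩ := h9
        have h10 : (p : ℤ) • Q' ∈ Φ := by
          rw [← C_mul']
          exact hQ
        have h11 := ih Q' (h1 _ _ hpn h10) m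
        rw [coeff_C_mul, pow_succ, mul_comm]
        exact mul_dvd_mul_left _ h11
    have h12 : coeff m Q = 0 := by
      by_contra h0
      have h13 := h7 (coeff m Q).natAbs Q hQ m
      have h14 := Int.le_of_dvd (Int.natAbs_pos.mpr h0 |> fun h => by exact_mod_cast h)
        (Int.dvd_natAbs.mpr h13)
      have h15 : (coeff m Q).natAbs < p ^ (coeff m Q).natAbs := Nat.lt_pow_self hp.one_lt
      have h16 : (p : ℤ) ^ (coeff m Q).natAbs = ((p ^ (coeff m Q).natAbs : ℕ) : ℤ) := by
        push_cast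
        rfl
      rw [h16] at h14
      omega
    rw [h12, Int.cast_zero]
    exact zero_mem _

/-- The elements `x` are algebraically independent modulo `q` (over the prime field). -/
def IndMod {ι : Type} (q : Ideal D) (x : ι → D) : Prop :=
  ∀ Q : MvPolynomial ι ℤ, aeval x Q ∈ q → ∀ m, ((coeff m Q : ℤ) : D) ∈ q

theorem indMod_lift {ι : Type} {q q' : Ideal D} (hq : q.IsPrime) (hq' : q'.IsPrime) (hle : q ≤ q')
    {x : ι → D} (h : IndMod q' x) : IndMod q x := by
  intro Q hQ m
  refine descent hq hq' hle {Q | aeval x Q ∈ q} ?_ ?_ Q hQ m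
  · intro n Q hn hQ
    change aeval x (n • Q) ∈ q at hQ
    rw [map_zsmul, zsmul_eq_mul] at hQ
    exact (hq.mem_or_mem hQ).resolve_left hn
  · intro Q hQ m
    exact h Q (hle hQ) m

theorem aeval_mem {ι : Type} {q : Ideal D} {x : ι → D} {Q : MvPolynomial ι ℤ}
    (h : ∀ m, ((coeff m Q : ℤ) : D) ∈ q) : aeval x Q ∈ q := by
  rw [aeval_def, eval₂_eq]
  refine sum_mem fun m _ => Ideal.mul_mem_right _ _ ?_
  exact h m

theorem indMod_cons {s : ℕ} {q q' : Ideal D} (hq : q.IsPrime) (hq' : q'.IsPrime) (hle : q ≤ q')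
    (he : eps q = eps q') {x : Fin s → D} (h : IndMod q' x) {a : D} (ha : a ∈ q') (ha' : a ∉ q) :
    IndMod q (Fin.cons a x : Fin (s + 1) → D) := by
  have key : ∀ (n : ℕ) (P : Polynomial (MvPolynomial (Fin s) ℤ)), P.natDegree < n →
      P.eval₂ ((aeval (R := ℤ) x : MvPolynomial (Fin s) ℤ →ₐ[ℤ] D) : MvPolynomial (Fin s) ℤ →+* D) a
        ∈ q → ∀ i m, ((coeff m (P.coeff i) : ℤ) : D) ∈ q := by
    intro n
    induction n with
    | zero =>
      intro P hP
      omega
    | succ n ih =>
      intro P hP hPq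
      have h1 : P.divX * Polynomial.X + Polynomial.C (P.coeff 0) = P := Polynomial.divX_mul_X_add P
      rw [← h1, Polynomial.eval₂_add, Polynomial.eval₂_mul_X, Polynomial.eval₂_C] at hPq
      have h2 : aeval x (P.coeff 0) ∈ q' := by
        have h3 := hle hPq
        exact (Submodule.add_mem_iff_right q' (Ideal.mul_mem_left _ _ ha)).mp h3
      have h4 : ∀ m, ((coeff m (P.coeff 0) : ℤ) : D) ∈ q := fun m =>
        int_mem hq hq' hle he (h _ h2 m)
      have h5 : P.divX.eval₂ ((aeval (R := ℤ) x : MvPolynomial (Fin s) ℤ →ₐ[ℤ] D) :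
          MvPolynomial (Fin s) ℤ →+* D) a ∈ q := by
        have h6 : _ * a ∈ q := (Submodule.add_mem_iff_left q (aeval_mem h4)).mp hPq
        exact (hq.mem_or_mem h6).resolve_right ha'
      intro i m
      rcases i with _ | i
      · exact h4 m
      · rw [← Polynomial.coeff_divX]
        by_cases h7 : P.divX = 0
        · rw [h7, Polynomial.coeff_zero, coeff_zero, Int.cast_zero]
          exact zero_mem _
        · refine ih P.divX ?_ h5 i m
          have h8 := Polynomial.natDegree_divX_eq_natDegree_tsub_one (p := P)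
          by_cases h9 : P.natDegree = 0
          · exfalso
            apply h7
            rw [Polynomial.eq_C_of_natDegree_eq_zero h9, Polynomial.divX_C]
          · omega
  intro Q hQ m
  have h1 : ((Polynomial.eval₂RingHom ((aeval (R := ℤ) x : MvPolynomial (Fin s) ℤ →ₐ[ℤ] D) :
      MvPolynomial (Fin s) ℤ →+* D) a).comp (finSuccEquiv ℤ s : _ →+* _)) =
      ((aeval (Fin.cons a x : Fin (s + 1) → D) : MvPolynomial (Fin (s + 1)) ℤ →ₐ[ℤ] D) :
        MvPolynomial (Fin (s + 1)) ℤ →+* D) := by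
    apply MvPolynomial.ringHom_ext
    · intro c
      simp
    · intro i
      refine Fin.cases ?_ (fun i => ?_) i
      · simp [finSuccEquiv_X_zero]
      · simp [finSuccEquiv_X_succ]
  have h2 := RingHom.congr_fun h1 Q
  have h3 := key _ (finSuccEquiv ℤ s Q) (Nat.lt_succ_self _) (by
    have h4 : Polynomial.eval₂ ((aeval (R := ℤ) x : MvPolynomial (Fin s) ℤ →ₐ[ℤ] D) :
        MvPolynomial (Fin s) ℤ →+* D) a (finSuccEquiv ℤ s Q) = aeval (Fin.cons a x) Q := h2
    rw [h4]
    exact hQ) (m 0) m.tail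
  rw [finSuccEquiv_coeff_coeff, Finsupp.cons_tail] at h3
  exact h3

/-- Chains of prime ideals give algebraically independent elements. -/
theorem chain_ind (l : LTSeries (PrimeSpectrum D)) :
    ∃ (s : ℕ) (x : Fin s → D), IndMod l.head.asIdeal x ∧ l.length ≤ s + eps l.head.asIdeal := by
  induction l using RelSeries.inductionOn with
  | singleton q =>
    refine ⟨0, Fin.elim0, ?_, ?_⟩
    · intro Q hQ m
      have h1 : Q = C (coeff 0 Q) := MvPolynomial.eq_C_of_isEmpty Q
      have h2 : m = 0 := Subsingleton.elim _ _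
      rw [h1, aeval_C] at hQ
      subst h2
      exact hQ
    · exact Nat.zero_le _
  | cons l q hq ih =>
    obtain ⟨s, x, hx, hs⟩ := ih
    have hlt : q < l.head := hq
    have hle : q.asIdeal ≤ l.head.asIdeal := hlt.le
    rw [RelSeries.head_cons, RelSeries.cons_length]
    by_cases he : eps q.asIdeal = eps l.head.asIdeal
    · obtain ⟨a, ha, ha'⟩ := Set.not_subset.mp (fun h => hlt.not_ge h : ¬ l.head.asIdeal ≤ q.asIdeal)
      refine ⟨s + 1, Fin.cons a x, indMod_cons q.isPrime l.head.isPrime hle he hx ha ha', ?_⟩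
      omega
    · refine ⟨s, x, indMod_lift q.isPrime l.head.isPrime hle hx, ?_⟩
      have h3 := eps_anti hle
      have h4 := eps_le_one q.asIdeal
      omega

end eps

end Pool.Agent.E8helper74.BG
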