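import Pool.Agent.E8helper74.BG.GrA
import Pool.Agent.E8helper74.BA.Fin2

/-!
# K'-groups of schemes with torus action of small complexity
-/

set_option autoImplicit false
set_option linter.unusedSectionVars false

open CategoryTheory AlgebraicGeometry
open Pool.Agent.R904.CU Pool.Agent.R904.TR Pool.Agent.Y116.UV Pool.Agent.Z125.UN

namespace Pool.Agent.E8helper74.BG

open Pool.Agent.E8helper74.BA

theorem k_graded (K : KThy) {d : ℕ} (hF : Good (fun A _ => FA K A) d) (A : Type)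
    [CommRing A] [Algebra.FiniteType ℤ A] {m : ℕ} (𝒜 : (Fin m → ℤ) → AddSubgroup A) [GradedRing 𝒜]
    (h : ∀ P ∈ minimalPrimes A, ringKrullDim (A ⧸ P) ≤ ((d + rank 𝒜 P : ℕ) : WithBot ℕ∞))
    (I : Ideal A) (hI : I.IsHomogeneous 𝒜) : K.Fin (Spec (.of (A ⧸ I))) ∧
      ∀ (U : Scheme.{0}) (j : U ⟶ Spec (.of A)), IsOpenImmersion j →
        Set.range j = {x : PrimeSpectrum A | ¬ I ≤ x.asIdeal} → K.Fin U := by
  have h1 : FA K (A ⧸ I) := graded_ring hF A 𝒜 h I hI
  have h2 : FA K (A ⧸ (⊥ : Ideal A)) := graded_ring hF A 𝒜 h ⊥ (Ideal.IsHomogeneous.bot 𝒜)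
  have hft : @Algebra.FiniteType ℤ (A ⧸ (⊥ : Ideal A)) _ _ (Ring.toIntAlgebra _) :=
    ftZ (C := A) inferInstance
  have h3 : FA K A := hF.iso _ _ (RingEquiv.quotientBot A) h2
  refine ⟨h1, fun U j hj hr n => ?_⟩
  let i : Spec (.of (A ⧸ I)) ⟶ Spec (.of A) := Spec.map (CommRingCat.ofHom (Ideal.Quotient.mk I))
  have hi : IsClosedImmersion i :=
    IsClosedImmersion.spec_of_surjective _ Ideal.Quotient.mk_surjective
  have hrange : Set.range i = (Set.range j)ᶜ := by
    rw [hr]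
    have h4 : Set.range i = PrimeSpectrum.zeroLocus (I : Set A) := by
      change Set.range (PrimeSpectrum.comap (Ideal.Quotient.mk I)) = _
      rw [range_comap_of_surjective _ _ Ideal.Quotient.mk_surjective, Ideal.mk_ker]
    rw [h4]
    ext x
    change (I : Set A) ⊆ x.asIdeal ↔ ¬ ¬ I ≤ x.asIdeal
    rw [not_not]
    exact Iff.rfl
  have hf : FinType ℤ (Spec (.of A)) (toInt A) := ⟨ft_toInt, by
    unfold toInt
    infer_instance⟩
  obtain ⟨a, b, c, e1, e2, e3, e4⟩ := K.localization (Spec (.of A)) (Spec (.of (A ⧸ I))) U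
    (toInt A) i j hf hi hj hrange
  cases n with
  | zero =>
    have := h3 0
    exact AddGroup.fg_of_surjective e4
  | succ n => exact fg_exact (b (n + 1)) (c n) (e2 n) (h3 (n + 1)) (h1 n)

end Pool.Agent.E8helper74.BG
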