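import Pool.Agent.E8helper74.BG.Hom

/-!
# Lifting algebraically independent elements of degree zero
-/

set_option autoImplicit false
set_option linter.unusedSectionVars false

open MvPolynomial

attribute [local instance] Classical.propDecidable

namespace Pool.Agent.E8helper74.BG

section lift

variable {R : Type} [CommRing R] {σ : Type} {m : ℕ} (δ : σ → (Fin m → ℤ))

/-- the first factor of the homogenized terms of `Q` -/
noncomputable def fterm {s r : ℕ} (y0 : MvPolynomial σ R) (y : Fin s → MvPolynomial σ R) (M : ℕ)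
    (Q : MvPolynomial (Fin s ⊕ Fin r) ℤ) (a : Fin s ⊕ Fin r →₀ ℕ) : MvPolynomial σ R :=
  C ((coeff a Q : ℤ) : R) * (y0 ^ (M - ∑ i, a (Sum.inl i)) * ∏ i, y i ^ a (Sum.inl i))

/-- the second factor -/
noncomputable def gterm (R : Type) [CommRing R] {σ : Type} {s r : ℕ} (g : Fin r → σ)
    (a : Fin s ⊕ Fin r →₀ ℕ) : MvPolynomial σ R :=
  ∏ j, X (g j) ^ a (Sum.inr j)

theorem term_wh {s r : ℕ} {lam : Fin m → ℤ} {y0 : MvPolynomial σ R}
    (hy0 : IsWeightedHomogeneous δ y0 lam) {y : Fin s → MvPolynomial σ R}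
    (hy : ∀ i, IsWeightedHomogeneous δ (y i) lam) (g : Fin r → σ) (M : ℕ)
    (Q : MvPolynomial (Fin s ⊕ Fin r) ℤ) (a : Fin s ⊕ Fin r →₀ ℕ) (ha : ∑ i, a (Sum.inl i) ≤ M) :
    IsWeightedHomogeneous δ (fterm y0 y M Q a * gterm R g a)
      (M • lam + ∑ j, a (Sum.inr j) • δ (g j)) := by
  have h1 : IsWeightedHomogeneous δ (∏ i, y i ^ a (Sum.inl i)) (∑ i, a (Sum.inl i) • lam) :=
    IsWeightedHomogeneous.prod _ _ _ fun i _ => (hy i).pow _
  have h2 : IsWeightedHomogeneous δ (gterm R g a) (∑ j, a (Sum.inr j) • δ (g j)) :=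
    IsWeightedHomogeneous.prod _ _ _ fun j _ => (isWeightedHomogeneous_X R δ (g j)).pow _
  have h3 := ((isWeightedHomogeneous_C δ ((coeff a Q : ℤ) : R)).mul
    ((hy0.pow (M - ∑ i, a (Sum.inl i))).mul h1)).mul h2
  have h4 : (0 + ((M - ∑ i, a (Sum.inl i)) • lam + ∑ i, a (Sum.inl i) • lam)) +
      ∑ j, a (Sum.inr j) • δ (g j) = M • lam + ∑ j, a (Sum.inr j) • δ (g j) := by
    rw [zero_add, ← Finset.sum_smul, ← add_smul, Nat.sub_add_cancel ha]
  rw [h4] at h3
  exact h3

theorem eval_term {s r : ℕ} {K : Type} [CommRing K] (φ : MvPolynomial σ R →+* K)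
    (y0 : MvPolynomial σ R) (y : Fin s → MvPolynomial σ R) (z : Fin s → K)
    (hz : ∀ i, φ (y i) = z i * φ y0) (M : ℕ)
    (Q : MvPolynomial (Fin s ⊕ Fin r) ℤ) (a : Fin s ⊕ Fin r →₀ ℕ) (ha : ∑ i, a (Sum.inl i) ≤ M) :
    φ (fterm y0 y M Q a) = φ y0 ^ M * (((coeff a Q : ℤ) : K) * ∏ i, z i ^ a (Sum.inl i)) := by
  unfold fterm
  rw [map_mul, map_mul, map_pow, map_prod]
  have h1 : φ (C ((coeff a Q : ℤ) : R)) = ((coeff a Q : ℤ) : K) := by
    rw [map_intCast, map_intCast]
  have h2 : ∏ i, φ (y i ^ a (Sum.inl i)) =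
      (∏ i, z i ^ a (Sum.inl i)) * φ y0 ^ (∑ i, a (Sum.inl i)) := by
    rw [← Finset.prod_pow_eq_pow_sum, ← Finset.prod_mul_distrib]
    apply Finset.prod_congr rfl
    intro i _
    rw [map_pow, hz, mul_pow]
  rw [h1, h2]
  have h3 : φ y0 ^ M = φ y0 ^ (M - ∑ i, a (Sum.inl i)) * φ y0 ^ (∑ i, a (Sum.inl i)) := by
    rw [← pow_add, Nat.sub_add_cancel ha]
  rw [h3]
  ring

/-- the exponents of the first variables -/
noncomputable def efst {s r : ℕ} (a : Fin s ⊕ Fin r →₀ ℕ) : Fin s →₀ ℕ :=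
  Finsupp.equivFunOnFinite.symm fun i => a (Sum.inl i)

theorem efst_apply {s r : ℕ} (a : Fin s ⊕ Fin r →₀ ℕ) (i : Fin s) : efst a i = a (Sum.inl i) := by
  unfold efst
  rw [Finsupp.equivFunOnFinite_symm_apply_apply]

theorem efst_inj {s r : ℕ} {a b : Fin s ⊕ Fin r →₀ ℕ} (h : efst a = efst b)
    (h2 : ∀ j, a (Sum.inr j) = b (Sum.inr j)) : a = b := by
  ext i
  rcases i with i | j
  · rw [← efst_apply, h, efst_apply]
  · exact h2 j

theorem lift_ind {D : Type} [CommRing D] (ev : MvPolynomial σ R →+* D) (q : Ideal D)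
    (hq : q.IsPrime) {s r : ℕ} (x : Fin s → D) (hx : IndMod q x) (P : Ideal (MvPolynomial σ R))
    (hPp : P.IsPrime) (hP : Hom δ P) (hle : P ≤ q.comap ev) (lam : Fin m → ℤ)
    (y0 : MvPolynomial σ R) (hy0 : IsWeightedHomogeneous δ y0 lam) (hu : IsUnit (ev y0))
    (y : Fin s → MvPolynomial σ R) (hy : ∀ i, IsWeightedHomogeneous δ (y i) lam)
    (hev : ∀ i, ev (y i) = x i * ev y0) (g : Fin r → σ) (hg : ∀ j, X (g j) ∉ P)
    (hlin : LinearIndependent ℚ fun j => fun i => (δ (g j) i : ℚ))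
    (K : Type) [Field K] [Algebra (MvPolynomial σ R ⧸ P) K]
    [IsFractionRing (MvPolynomial σ R ⧸ P) K] :
    ∃ z : Fin s ⊕ Fin r → K, ∀ Q : MvPolynomial (Fin s ⊕ Fin r) ℤ, aeval z Q = 0 →
      ∀ a, ((coeff a Q : ℤ) : MvPolynomial σ R ⧸ P) = 0 := by
  let φ : MvPolynomial σ R →+* K := (algebraMap (MvPolynomial σ R ⧸ P) K).comp (Ideal.Quotient.mk P)
  have hφ : ∀ p, φ p = 0 ↔ p ∈ P := by
    intro p
    change algebraMap (MvPolynomial σ R ⧸ P) K (Ideal.Quotient.mk P p) = 0 ↔ _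
    rw [IsFractionRing.to_map_eq_zero_iff, Ideal.Quotient.eq_zero_iff_mem]
  have hy0P : φ y0 ≠ 0 := by
    rw [Ne, hφ]
    intro h
    exact hq.ne_top (Ideal.eq_top_of_isUnit_mem _ (hle h) hu)
  let z1 : Fin s → K := fun i => φ (y i) / φ y0
  let z2 : Fin r → K := fun j => φ (X (g j))
  have hz1 : ∀ i, φ (y i) = z1 i * φ y0 := fun i => (div_mul_cancel₀ _ hy0P).symm
  refine ⟨Sum.elim z1 z2, ?_⟩
  have hmain : ∀ Q : MvPolynomial (Fin s ⊕ Fin r) ℤ, aeval (Sum.elim z1 z2) Q = 0 →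
      ∀ a, ((coeff a Q : ℤ) : MvPolynomial σ R) ∈ q.comap ev := by
    intro Q hQ m0
    by_cases hm0 : m0 ∈ Q.support
    swap
    · rw [notMem_support_iff.mp hm0, Int.cast_zero]
      exact zero_mem _
    let M : ℕ := ∑ a ∈ Q.support, ∑ i, a (Sum.inl i)
    have hM : ∀ a ∈ Q.support, ∑ i, a (Sum.inl i) ≤ M := fun a ha =>
      Finset.single_le_sum (f := fun a : Fin s ⊕ Fin r →₀ ℕ => ∑ i, a (Sum.inl i))
        (fun _ _ => Nat.zero_le _) ha
    have h1 : ∑ a ∈ Q.support, fterm y0 y M Q a * gterm R g a ∈ P := by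
      rw [← hφ, map_sum]
      have h2 : aeval (Sum.elim z1 z2) Q = ∑ a ∈ Q.support, ((coeff a Q : ℤ) : K) *
          ((∏ i, z1 i ^ a (Sum.inl i)) * ∏ j, z2 j ^ a (Sum.inr j)) := by
        rw [aeval_def, eval₂_eq']
        apply Finset.sum_congr rfl
        intro a _
        rw [Fintype.prod_sum_type]
        simp
      have h3 : ∑ a ∈ Q.support, φ (fterm y0 y M Q a * gterm R g a) =
          φ y0 ^ M * aeval (Sum.elim z1 z2) Q := by
        rw [h2, Finset.mul_sum]
        apply Finset.sum_congr rfl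
        intro a ha
        rw [map_mul, eval_term φ y0 y z1 hz1 M Q a (hM a ha)]
        have h4 : φ (gterm R g a) = ∏ j, z2 j ^ a (Sum.inr j) := by
          unfold gterm
          rw [map_prod]
          apply Finset.prod_congr rfl
          intro j _
          rw [map_pow]
        rw [h4]
        ring
      rw [h3, hQ, mul_zero]
    have h5 := hom_sum δ hP Q.support (fun a => fterm y0 y M Q a * gterm R g a)
      (fun a => M • lam + ∑ j, a (Sum.inr j) • δ (g j))
      (fun a ha => term_wh δ hy0 hy g M Q a (hM a ha)) h1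
      (M • lam + ∑ j, m0 (Sum.inr j) • δ (g j))
    let T0 := Q.support.filter fun a => M • lam + ∑ j, a (Sum.inr j) • δ (g j) =
      M • lam + ∑ j, m0 (Sum.inr j) • δ (g j)
    have hm0T : m0 ∈ T0 := by
      simp only [T0, Finset.mem_filter]
      exact ⟨hm0, trivial⟩
    have hT0 : ∀ a ∈ T0, ∀ j, a (Sum.inr j) = m0 (Sum.inr j) := by
      intro a ha
      have h6 := add_left_cancel (Finset.mem_filter.mp ha).2
      have h7 : ∑ j, ((a (Sum.inr j) : ℚ) - (m0 (Sum.inr j) : ℚ)) •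
          (fun i => (δ (g j) i : ℚ)) = (0 : Fin m → ℚ) := by
        funext i
        have h8 := congrFun h6 i
        simp only [Finset.sum_apply, Pi.smul_apply, nsmul_eq_mul] at h8
        simp only [Finset.sum_apply, Pi.smul_apply, smul_eq_mul, Pi.zero_apply, sub_mul,
          Finset.sum_sub_distrib]
        rw [sub_eq_zero]
        exact_mod_cast h8
      intro j
      have h9 := (Fintype.linearIndependent_iff.mp hlin _ h7) j
      have h10 := sub_eq_zero.mp h9
      exact_mod_cast h10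
    have h11 : (∑ a ∈ T0, fterm y0 y M Q a) * gterm R g m0 ∈ P := by
      have h12 : (∑ a ∈ T0, fterm y0 y M Q a) * gterm R g m0 =
          ∑ a ∈ T0, fterm y0 y M Q a * gterm R g a := by
        rw [Finset.sum_mul]
        apply Finset.sum_congr rfl
        intro a ha
        congr 1
        unfold gterm
        apply Finset.prod_congr rfl
        intro j _
        rw [hT0 a ha j]
      rw [h12]
      exact h5
    have h13 : gterm R g m0 ∉ P := by
      intro h
      unfold gterm at h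
      obtain ⟨j, -, hj⟩ := hPp.prod_mem_iff.mp h
      exact hg j (hPp.mem_of_pow_mem _ hj)
    have h14 : ∑ a ∈ T0, fterm y0 y M Q a ∈ q.comap ev :=
      hle ((hPp.mem_or_mem h11).resolve_right h13)
    let Q1 : MvPolynomial (Fin s) ℤ := ∑ a ∈ T0, monomial (efst a) (coeff a Q)
    have h15 : ev (∑ a ∈ T0, fterm y0 y M Q a) = ev y0 ^ M * aeval x Q1 := by
      rw [map_sum, map_sum, Finset.mul_sum]
      apply Finset.sum_congr rfl
      intro a ha
      rw [eval_term ev y0 y x hev M Q a (hM a (Finset.mem_filter.mp ha).1), aeval_monomial]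
      rw [Finsupp.prod_fintype _ _ (fun i => pow_zero _)]
      simp only [efst_apply]
      rfl
    have h16 : aeval x Q1 ∈ q := by
      have h17 : ev y0 ^ M * aeval x Q1 ∈ q := by
        rw [← h15]
        exact h14
      exact (Ideal.unit_mul_mem_iff_mem _ (hu.pow M)).mp h17
    have h18 := hx Q1 h16 (efst m0)
    have h19 : coeff (efst m0) Q1 = coeff m0 Q := by
      rw [coeff_sum, Finset.sum_eq_single m0]
      · rw [coeff_monomial, if_pos rfl]
      · intro a ha hne
        rw [coeff_monomial, if_neg]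
        intro h20
        exact hne (efst_inj h20 (hT0 a ha))
      · intro h
        exact absurd hm0T h
    rw [h19] at h18
    change ev _ ∈ q
    rw [map_intCast]
    exact h18
  have hq' : (q.comap ev).IsPrime := hq.comap ev
  intro Q hQ a
  have h21 := descent hPp hq' hle {Q | aeval (Sum.elim z1 z2) Q = 0} (by
    intro n Q hn hQ
    change aeval (Sum.elim z1 z2) (n • Q) = 0 at hQ
    rw [map_zsmul, zsmul_eq_mul] at hQ
    refine (mul_eq_zero.mp hQ).resolve_left ?_
    intro h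
    apply hn
    rw [← hφ, map_intCast]
    exact h) (fun Q hQ a => hmain Q hQ a) Q hQ a
  have h22 := Ideal.Quotient.eq_zero_iff_mem.mpr h21
  rw [map_intCast] at h22
  exact h22

end lift

end Pool.Agent.E8helper74.BG
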