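import Pool.Agent.E8helper74.BG.Rep
import Pool.Agent.E8helper74.BA.Compl

/-!
# Graded rings of small complexity
-/

set_option autoImplicit false
set_option linter.unusedSectionVars false

open MvPolynomial

attribute [local instance] Classical.propDecidable

namespace Pool.Agent.E8helper74.BG

open Pool.Agent.E8helper74.BA

section rank

variable {R : Type} [CommRing R] {σ : Type} {m : ℕ} (δ : σ → (Fin m → ℤ))
  (P : Ideal (MvPolynomial σ R))

/-- the dimension of the space generated by the degrees of the variables which are not in `P` -/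
noncomputable def rk : ℕ := Module.finrank ℚ (Submodule.span ℚ
  {v : Fin m → ℚ | ∃ i, X i ∉ P ∧ v = fun j => (δ i j : ℚ)})

theorem exists_rk : ∃ g : Fin (rk δ P) → σ, (∀ j, X (g j) ∉ P) ∧
    LinearIndependent ℚ fun j => fun i => (δ (g j) i : ℚ) := by
  let S : Set (Fin m → ℚ) := {v | ∃ i, X i ∉ P ∧ v = fun j => (δ i j : ℚ)}
  obtain ⟨b, hbs, hspan, hli⟩ := exists_linearIndependent ℚ S
  have hfin : b.Finite := hli.setFinite
  have : Fintype b := hfin.fintype
  have h1 : rk δ P = Fintype.card b := by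
    change Module.finrank ℚ (Submodule.span ℚ S) = _
    rw [← hspan, finrank_span_set_eq_card hli, Set.toFinset_card]
  let e : Fin (rk δ P) ≃ b := (finCongr h1).trans (Fintype.equivFin b).symm
  have h2 : ∀ j, ∃ i, X i ∉ P ∧ ((e j : Fin m → ℚ)) = fun k => (δ i k : ℚ) := fun j => hbs (e j).2
  choose g hg hg2 using h2
  refine ⟨g, hg, ?_⟩
  have h3 : (fun j => fun i => (δ (g j) i : ℚ)) = (Subtype.val : b → (Fin m → ℚ)) ∘ e := by
    funext j
    exact (hg2 j).symm
  rw [h3]
  exact hli.comp _ e.injective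

end rank

section main

variable {R : Type} [CommRing R] [Algebra.FiniteType ℤ R] {σ κ : Type} [Fintype σ] [Fintype κ]
  (f : κ → MvPolynomial σ R) {m : ℕ} (δ : σ → (Fin m → ℤ))
  (hf : ∀ l, ∃ lam, IsWeightedHomogeneous δ (f l) lam)
  (J : Ideal (MvPolynomial σ R)) (hJ : Hom δ J) (hJf : J ≤ Ideal.span (Set.range f)) (d : ℕ)
  (h : ∀ P ∈ J.minimalPrimes,
    ringKrullDim (MvPolynomial σ R ⧸ P) ≤ ((d + rk δ P : ℕ) : WithBot ℕ∞))
  (B : Type) [CommRing B] [Nontrivial B] [Algebra (MvPolynomial σ R) B] [Algebra R B]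
  [IsScalarTower R (MvPolynomial σ R) B]
  (hB : IsStratum (Ideal.span (Set.range f)) (fns f : Set (MvPolynomial σ R)) B)

include hJ hJf h hB in
theorem dim_cal {K : Type} [AddCommGroup K] (p : HH R σ B →+ K)
    (hpw : ∀ a, p a = 0 → wtH B δ a = 0) (e : B ≃+* AddMonoidAlgebra (Cal f B p) K)
    (he : ∀ c : Cal f B p, e c = AddMonoidAlgebra.single 0 c) :
    ringKrullDim (Cal f B p) ≤ (d : WithBot ℕ∞) := by
  have hS := ftZ (C := R) (D := MvPolynomial σ R) inferInstance
  let aug : AddMonoidAlgebra (Cal f B p) K →+* Cal f B p :=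
    AddMonoidAlgebra.liftNCRingHom (RingHom.id _) 1 (fun _ _ => Commute.all _ _)
  have haug : ∀ c, aug (AddMonoidAlgebra.single 0 c) = c := by
    intro c
    change AddMonoidAlgebra.liftNCRingHom _ _ _ _ = c
    rw [AddMonoidAlgebra.liftNCRingHom_single]
    simp
  let ev0 : B →+* Cal f B p := aug.comp (e : B →+* AddMonoidAlgebra (Cal f B p) K)
  have hev0 : ∀ c : Cal f B p, ev0 c = c := by
    intro c
    change aug (e c) = c
    rw [he, haug]
  let ev : MvPolynomial σ R →+* Cal f B p := ev0.comp (algebraMap (MvPolynomial σ R) B)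
  refine iSup_le fun l => ?_
  obtain ⟨s, x, hx, hs⟩ := chain_ind l
  obtain ⟨lam, y0, y, hy0, hy, hu, hxy⟩ := rep_family B δ (fun i => (x i : B))
    (fun i => rep_cal f B δ hB p hpw (x i) (x i).2)
  have hq : l.head.asIdeal.IsPrime := l.head.isPrime
  have hJq : J ≤ l.head.asIdeal.comap ev := by
    intro a ha
    have h1 : algebraMap (MvPolynomial σ R) B a = 0 := hB.zero a (hJf ha)
    change ev0 (algebraMap (MvPolynomial σ R) B a) ∈ l.head.asIdeal
    rw [h1, map_zero]
    exact zero_mem _
  have hq' : (l.head.asIdeal.comap ev).IsPrime := hq.comap ev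
  obtain ⟨P, hP, hPq⟩ := Ideal.exists_minimalPrimes_le hJq
  have hPp : P.IsPrime := hP.1.1
  obtain ⟨g, hg, hlin⟩ := exists_rk δ P
  let K' := FractionRing (MvPolynomial σ R ⧸ P)
  obtain ⟨z, hz⟩ := lift_ind δ ev l.head.asIdeal hq x hx P hPp (hom_minimal δ hJ hP) hPq lam y0 hy0
    (hu.map ev0) y hy (by
      intro i
      change ev0 (algebraMap (MvPolynomial σ R) B (y i)) =
        x i * ev0 (algebraMap (MvPolynomial σ R) B y0)
      rw [← hxy, map_mul, hev0]) g hg hlin K'
  have hftP : @Algebra.FiniteType ℤ (MvPolynomial σ R ⧸ P) _ _ (Ring.toIntAlgebra _) :=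
    ftZ (C := MvPolynomial σ R) inferInstance
  have h1 := lower (MvPolynomial σ R ⧸ P) K' z hz
  have h2 := h1.trans (h P hP)
  rw [Fintype.card_sum, Fintype.card_fin, Fintype.card_fin] at h2
  have h3 : s + rk δ P + eps (⊥ : Ideal (MvPolynomial σ R ⧸ P)) ≤ d + rk δ P := by
    exact_mod_cast h2
  have h4 : eps l.head.asIdeal ≤ eps (⊥ : Ideal (MvPolynomial σ R ⧸ P)) := by
    unfold eps
    by_cases h5 : ∃ n : ℕ, 0 < n ∧ (n : MvPolynomial σ R ⧸ P) ∈ (⊥ : Ideal (MvPolynomial σ R ⧸ P))
    · obtain ⟨n, hn, hnP⟩ := h5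
      have h6 : (n : MvPolynomial σ R) ∈ P := by
        rw [Ideal.mem_bot] at hnP
        rw [← Ideal.Quotient.eq_zero_iff_mem, map_natCast]
        exact hnP
      have h7 : ev (n : MvPolynomial σ R) ∈ l.head.asIdeal := hPq h6
      rw [map_natCast] at h7
      rw [if_pos ⟨n, hn, h7⟩]
      exact Nat.zero_le _
    · rw [if_neg h5]
      split_ifs <;> omega
  have h8 : l.length ≤ d := by omega
  exact_mod_cast h8

end main

section main2

variable {R : Type} [CommRing R] [Algebra.FiniteType ℤ R] {σ κ : Type} [Fintype σ] [Fintype κ]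
  (f : κ → MvPolynomial σ R) {m : ℕ} (δ : σ → (Fin m → ℤ))

/-- Properties of graded rings of complexity at most `d`. -/
theorem graded_main {F : ∀ (B : Type) [CommRing B], Prop} {d : ℕ} (hF : Good F d)
    (hf : ∀ l, ∃ lam, IsWeightedHomogeneous δ (f l) lam)
    (J : Ideal (MvPolynomial σ R)) (hJ : Hom δ J) (hJf : J ≤ Ideal.span (Set.range f))
    (h : ∀ P ∈ J.minimalPrimes,
      ringKrullDim (MvPolynomial σ R ⧸ P) ≤ ((d + rk δ P : ℕ) : WithBot ℕ∞)) :
    F (MvPolynomial σ R ⧸ Ideal.span (Set.range f)) := by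
  have hA := ftZ (C := R) (D := MvPolynomial σ R) inferInstance
  refine strat (A := MvPolynomial σ R) (Ideal.span (Set.range f)) (fns f) F hF.glue ?_
  intro B _ _ hB
  have hBft : Algebra.FiniteType ℤ B := Algebra.FiniteType.trans (S := MvPolynomial σ R) hA hB.ft
  rcases subsingleton_or_nontrivial B with hs | hn
  · refine hF.dim B ?_
    rw [ringKrullDim_eq_bot_of_subsingleton]
    exact bot_le
  · let _ : Algebra R B := ((algebraMap (MvPolynomial σ R) B).comp C).toAlgebra
    have hT : IsScalarTower R (MvPolynomial σ R) B := IsScalarTower.of_algebraMap_eq fun r => rfl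
    obtain ⟨r, p, s, hs, hp, -⟩ := exists_split (HH R σ B) (wtH B δ).ker
    have hpw : ∀ a, p a = 0 → wtH B δ a = 0 := by
      intro a ha
      obtain ⟨n, hn, hna⟩ := (hp a).mp ha
      have h1 : wtH B δ (n • a) = 0 := hna
      rw [map_nsmul] at h1
      funext i
      have h2 := congrFun h1 i
      rw [Pi.smul_apply, nsmul_eq_mul, Pi.zero_apply] at h2
      rcases mul_eq_zero.mp h2 with h3 | h3
      · exfalso
        have : n = 0 := by exact_mod_cast h3
        omega
      · exact h3
    have hpL : ∀ a ∈ Lam f B, p a = 0 := by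
      intro a ha
      rw [hp]
      refine ⟨1, one_pos, ?_⟩
      rw [one_smul]
      unfold Lam at ha
      induction ha using AddSubgroup.closure_induction with
      | mem x hx =>
        obtain ⟨l, e, he, e', he', rfl⟩ := hx
        rw [supE, Finset.mem_filter] at he he'
        obtain ⟨lam, hlam⟩ := hf l
        change wtH B δ _ = 0
        rw [map_sub, ← weight_res B δ e he.2.1, ← weight_res B δ e' he'.2.1,
          hlam (mem_support_iff.mp he.1), hlam (mem_support_iff.mp he'.1), sub_self]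
      | zero => exact zero_mem _
      | add x y _ _ ihx ihy => exact add_mem ihx ihy
      | neg x _ ihx => exact neg_mem ihx
    obtain ⟨e, he⟩ := cell_iso' f B p s hs hB hpL
    have h1 := ft_equiv e
    have h2 : Algebra.FiniteType ℤ (Cal f B p) := by
      let g : AddMonoidAlgebra (Cal f B p) (Fin r → ℤ) →+* Cal f B p :=
        AddMonoidAlgebra.liftNCRingHom (RingHom.id _) 1 (fun _ _ => Commute.all _ _)
      refine Algebra.FiniteType.of_surjective g.toIntAlgHom ?_
      intro c
      refine ⟨AddMonoidAlgebra.single 0 c, ?_⟩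
      change g _ = c
      rw [AddMonoidAlgebra.liftNCRingHom_single]
      simp
    have h3 : F (Cal f B p) := hF.dim _ (dim_cal f δ J hJ hJf d h B hB p hpw e he)
    exact hF.iso _ _ e.symm (torus_up hF _ h3 r)

end main2

end Pool.Agent.E8helper74.BG
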