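import Pool.Agent.E8helper74.BG.Lift
import Pool.Agent.E8helper74.BG.GCell

/-!
# Elements of degree zero as fractions of homogeneous polynomials
-/

set_option autoImplicit false
set_option linter.unusedSectionVars false

open MvPolynomial

attribute [local instance] Classical.propDecidable

namespace Pool.Agent.E8helper74.BG

open Pool.Agent.E8helper74.BA

section rep

variable {R : Type} [CommRing R] {σ κ : Type} [Fintype σ] [Fintype κ] (f : κ → MvPolynomial σ R)
variable (B : Type) [CommRing B] [Algebra (MvPolynomial σ R) B] [Algebra R B]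
  [IsScalarTower R (MvPolynomial σ R) B]
variable {m : ℕ} (δ : σ → (Fin m → ℤ))

/-- the degree of a monomial with integral exponents -/
noncomputable def wtH : HH R σ B →+ (Fin m → ℤ) where
  toFun a := ∑ i, a i • δ i.1
  map_zero' := by simp
  map_add' a b := by
    rw [← Finset.sum_add_distrib]
    apply Finset.sum_congr rfl
    intro i _
    rw [Pi.add_apply, add_smul]

theorem weight_res (e : σ →₀ ℕ) (he : Sup (uq R B) e) :
    Finsupp.weight δ e = wtH B δ (res (uq R B) e) := by
  rw [Finsupp.weight_apply, Finsupp.sum_fintype e (fun i c => c • δ i) (fun i => zero_smul ℕ _)]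
  change _ = ∑ i : {i : σ // uq R B i}, ((e i.1 : ℕ) : ℤ) • δ i.1
  rw [← Finset.sum_filter_add_sum_filter_not Finset.univ (uq R B) fun i => e i • δ i]
  have h1 : ∑ i ∈ Finset.univ.filter (fun i => ¬ uq R B i), e i • δ i = 0 := by
    apply Finset.sum_eq_zero
    intro i hi
    have h2 : e i = 0 := by
      by_contra h
      exact (Finset.mem_filter.mp hi).2 (he i h)
    rw [h2, zero_smul]
  rw [h1, add_zero]
  rw [Finset.sum_subtype (Finset.univ.filter (uq R B)) (p := uq R B) (by simp)
    (fun i => e i • δ i)]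
  apply Finset.sum_congr rfl
  intro i _
  rw [natCast_zsmul]

/-- the positive part of the exponents -/
noncomputable def up (a : HH R σ B) : σ →₀ ℕ :=
  Finsupp.equivFunOnFinite.symm fun i => if h : uq R B i then (a ⟨i, h⟩).toNat else 0

theorem up_sup (a : HH R σ B) : Sup (uq R B) (up B a) := by
  intro i hi
  by_contra h
  apply hi
  unfold up
  rw [Finsupp.equivFunOnFinite_symm_apply_apply, dif_neg h]

theorem res_up (a : HH R σ B) : res (uq R B) (up B a) = a + res (uq R B) (up B (-a)) := by
  funext i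
  unfold res up
  rw [Pi.add_apply, Finsupp.equivFunOnFinite_symm_apply_apply,
    Finsupp.equivFunOnFinite_symm_apply_apply, dif_pos i.2, dif_pos i.2]
  have := Int.toNat_sub_toNat_neg (a i)
  change (((a i).toNat : ℕ) : ℤ) = a i + (((-a i).toNat : ℕ) : ℤ)
  omega

/-- `x` is a fraction of homogeneous polynomials of the same degree -/
def Rep (R : Type) [CommRing R] {σ : Type} (B : Type) [CommRing B] [Algebra (MvPolynomial σ R) B]
    {m : ℕ} (δ : σ → (Fin m → ℤ)) (x : B) : Prop := ∃ (lam : Fin m → ℤ) (a y : MvPolynomial σ R),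
  IsWeightedHomogeneous δ a lam ∧ IsWeightedHomogeneous δ y lam ∧
    IsUnit (algebraMap (MvPolynomial σ R) B y) ∧
    x * algebraMap (MvPolynomial σ R) B y = algebraMap (MvPolynomial σ R) B a

variable (hB : IsStratum (Ideal.span (Set.range f)) (fns f : Set (MvPolynomial σ R)) B)

include hB

theorem mon_mul_up (a : HH R σ B) :
    mon B a * algebraMap (MvPolynomial σ R) B (monomial (up B (-a)) 1) =
      algebraMap (MvPolynomial σ R) B (monomial (up B a) 1) := by
  rw [g_monomial_one (isMon_mon B) (algebraMap (MvPolynomial σ R) B) (phi_X f B hB) _ (up_sup B _),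
    g_monomial_one (isMon_mon B) (algebraMap (MvPolynomial σ R) B) (phi_X f B hB) _ (up_sup B _),
    res_up B a, (isMon_mon B).add]

theorem rep_mon (a : HH R σ B) (ha : wtH B δ a = 0) : Rep R B δ (mon B a) := by
  refine ⟨Finsupp.weight δ (up B a), monomial (up B a) 1, monomial (up B (-a)) 1,
    isWeightedHomogeneous_monomial _ _ _ rfl, isWeightedHomogeneous_monomial _ _ _ ?_, ?_,
    mon_mul_up f B hB a⟩
  · rw [weight_res B δ _ (up_sup B _), weight_res B δ _ (up_sup B _), res_up B a, map_add, ha, zero_add]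
  · rw [g_monomial_one (isMon_mon B) (algebraMap (MvPolynomial σ R) B) (phi_X f B hB) _ (up_sup B _)]
    exact mon_unit (isMon_mon B) _

variable {K : Type} [AddCommGroup K] (p : HH R σ B →+ K) (hpw : ∀ a, p a = 0 → wtH B δ a = 0)

include hpw in
theorem rep_cal [Nontrivial B] (x : B) (hx : x ∈ Cal f B p) : Rep R B δ x := by
  induction hx using Algebra.adjoin_induction with
  | mem x hx =>
    rcases hx with ⟨l, e, he, hb⟩ | ⟨a, ha, rfl⟩
    · refine ⟨0, 1, C (coeff e (f l)), isWeightedHomogeneous_one R δ,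
        isWeightedHomogeneous_C δ _, ?_, ?_⟩
      · rw [← alg_eq]
        exact IsUnit.of_mul_eq_one _ hb
      · rw [← alg_eq, map_one, mul_comm, hb]
    · exact rep_mon f B δ hB a (hpw a ha)
  | algebraMap r =>
    refine ⟨0, C r, 1, isWeightedHomogeneous_C δ _, isWeightedHomogeneous_one R δ, ?_, ?_⟩
    · rw [map_one]
      exact isUnit_one
    · rw [map_one, mul_one, ← alg_eq]
  | add x x' _ _ ihx ihx' =>
    obtain ⟨lam, a, y, h1, h2, h3, h4⟩ := ihx
    obtain ⟨lam', a', y', h1', h2', h3', h4'⟩ := ihx'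
    refine ⟨lam + lam', a * y' + y * a', y * y', ?_, h2.mul h2', ?_, ?_⟩
    · exact (h1.mul h2').add (h2.mul h1')
    · rw [map_mul]
      exact h3.mul h3'
    · rw [map_add, map_mul, map_mul, map_mul, ← h4, ← h4']
      ring
  | mul x x' _ _ ihx ihx' =>
    obtain ⟨lam, a, y, h1, h2, h3, h4⟩ := ihx
    obtain ⟨lam', a', y', h1', h2', h3', h4'⟩ := ihx'
    refine ⟨lam + lam', a * a', y * y', h1.mul h1', h2.mul h2', ?_, ?_⟩
    · rw [map_mul]
      exact h3.mul h3'
    · rw [map_mul, map_mul, ← h4, ← h4']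
      ring

omit hB in
theorem rep_family {s : ℕ} (x : Fin s → B) (hx : ∀ i, Rep R B δ (x i)) :
    ∃ (lam : Fin m → ℤ) (y0 : MvPolynomial σ R) (y : Fin s → MvPolynomial σ R),
      IsWeightedHomogeneous δ y0 lam ∧ (∀ i, IsWeightedHomogeneous δ (y i) lam) ∧
      IsUnit (algebraMap (MvPolynomial σ R) B y0) ∧
      ∀ i, x i * algebraMap (MvPolynomial σ R) B y0 = algebraMap (MvPolynomial σ R) B (y i) := by
  induction s with
  | zero =>
    refine ⟨0, 1, Fin.elim0, isWeightedHomogeneous_one R δ, fun i => i.elim0, ?_, fun i => i.elim0⟩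
    rw [map_one]
    exact isUnit_one
  | succ s ih =>
    obtain ⟨lam, y0, y, h1, h2, h3, h4⟩ := ih (fun i => x i.succ) fun i => hx i.succ
    obtain ⟨lam', a, b, h1', h2', h3', h4'⟩ := hx 0
    refine ⟨lam + lam', y0 * b, Fin.cons (y0 * a) (fun i => y i * b), h1.mul h2', ?_, ?_, ?_⟩
    · intro i
      refine Fin.cases ?_ (fun i => ?_) i
      · rw [Fin.cons_zero]
        exact h1.mul h1'
      · rw [Fin.cons_succ]
        exact (h2 i).mul h2'
    · rw [map_mul]
      exact h3.mul h3'
    · intro i
      refine Fin.cases ?_ (fun i => ?_) i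
      · rw [Fin.cons_zero, map_mul, map_mul, ← h4']
        ring
      · rw [Fin.cons_succ, map_mul, map_mul, ← h4]
        ring

end rep

end Pool.Agent.E8helper74.BG
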