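import Pool.Agent.Helper834.EC.Dim1
import Pool.Agent.E8helper74.BG.Ind

/-!
# Lower bounds for the dimension of domains which are finitely generated over `ℤ`
-/

set_option autoImplicit false
set_option linter.unusedSectionVars false

open MvPolynomial

attribute [local instance] Classical.propDecidable

namespace Pool.Agent.E8helper74.BG

open Pool.Agent.Helper834.EC

theorem fld (k D K : Type) [Field k] [CommRing D] [IsDomain D] [Algebra k D]
    [Algebra.FiniteType k D] [Field K] [Algebra D K] [IsFractionRing D K] [Algebra k K]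
    [IsScalarTower k D K] (n : ℕ) (h : (n : Cardinal) ≤ Algebra.trdeg k K) :
    (n : WithBot ℕ∞) ≤ ringKrullDim D := by
  obtain ⟨s, hs1, hs2⟩ := exists_ringKrullDim_eq_trdeg k D
  have h1 : Algebra.trdeg k D + Algebra.trdeg D K = Algebra.trdeg k K := _root_.trdeg_add_eq _ _
  have h2 : Algebra.IsAlgebraic D K := IsLocalization.isAlgebraic (S := K) (nonZeroDivisors D)
  rw [_root_.trdeg_eq_zero (R := D) (A := K), add_zero, hs2] at h1
  rw [← h1] at h
  rw [hs1]
  exact_mod_cast h

theorem jac_int : IsJacobsonRing ℤ := by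
  rw [isJacobsonRing_iff_prime_eq]
  intro P hP
  by_cases h : P = ⊥
  · subst h
    rw [eq_bot_iff]
    intro x hx
    rw [Ideal.mem_jacobson_bot] at hx
    have h1 := hx x
    rw [Int.isUnit_iff] at h1
    rw [Ideal.mem_bot]
    rcases h1 with h1 | h1
    · have : x * x = 0 := by linarith
      exact mul_self_eq_zero.1 this
    · exfalso
      nlinarith [mul_self_nonneg x]
  · have : P.IsMaximal := IsPrime.to_maximal_ideal h
    exact Ideal.jacobson_eq_self_of_isMaximal

theorem dim_succ {D E : Type} [CommRing D] [CommRing E] [Algebra.FiniteType ℤ D] (f : D →+* E)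
    (hE : ∀ n : ℕ, 0 < n → IsUnit (n : E))
    (hf : ∀ x : E, ∃ n : ℕ, 0 < n ∧ ∃ a : D, (n : E) * x = f a) (n : ℕ)
    (hn : (n : WithBot ℕ∞) ≤ ringKrullDim E) : ((n + 1 : ℕ) : WithBot ℕ∞) ≤ ringKrullDim D := by
  unfold ringKrullDim at hn ⊢
  rw [Order.le_krullDim_iff] at hn ⊢
  obtain ⟨l, hl⟩ := hn
  have hmono : StrictMono (PrimeSpectrum.comap f) := by
    refine Monotone.strictMono_of_injective (fun _ _ hab => Ideal.comap_mono hab) ?_
    intro P Q hPQ
    apply PrimeSpectrum.ext
    have hPQ' : ∀ a : D, f a ∈ P.asIdeal ↔ f a ∈ Q.asIdeal := by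
      intro a
      have := congrArg (fun R => a ∈ PrimeSpectrum.asIdeal R) hPQ
      exact iff_of_eq this
    ext x
    obtain ⟨n, hn, a, ha⟩ := hf x
    have hu := hE n hn
    have h1 : ∀ R : PrimeSpectrum E, x ∈ R.asIdeal ↔ f a ∈ R.asIdeal := by
      intro R
      rw [← ha]
      exact (Ideal.unit_mul_mem_iff_mem _ hu).symm
    rw [h1, h1, hPQ']
  let l' := l.map _ hmono
  let q := l'.last
  have hq : q = PrimeSpectrum.comap f l.last := LTSeries.last_map _ _ _
  have hnat : ∀ n : ℕ, 0 < n → (n : D) ∉ q.asIdeal := by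
    intro n hn h
    rw [hq] at h
    change f (n : D) ∈ l.last.asIdeal at h
    rw [map_natCast] at h
    exact l.last.isPrime.ne_top (Ideal.eq_top_of_isUnit_mem _ h (hE n hn))
  have hmax : ¬ q.asIdeal.IsMaximal := by
    intro hm
    let _ : Field (D ⧸ q.asIdeal) := Ideal.Quotient.field q.asIdeal
    have h1 : Algebra.FiniteType ℤ (D ⧸ q.asIdeal) :=
      Algebra.FiniteType.of_surjective ((Ideal.Quotient.mk q.asIdeal).toIntAlgHom)
        Ideal.Quotient.mk_surjective
    have hjac := jac_int
    have h2 : Module.Finite ℤ (D ⧸ q.asIdeal) := finite_of_finite_type_of_isJacobsonRing ℤ _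
    have h3 : Algebra.IsIntegral ℤ (D ⧸ q.asIdeal) := inferInstance
    have h4 : Function.Injective (algebraMap ℤ (D ⧸ q.asIdeal)) := by
      rw [injective_iff_map_eq_zero]
      intro c hc
      by_contra h0
      have h5 : Ideal.Quotient.mk q.asIdeal (c : D) = 0 := by
        rw [← hc]
        simp
      rw [Ideal.Quotient.eq_zero_iff_mem] at h5
      refine hnat c.natAbs (Int.natAbs_pos.mpr h0) ?_
      rcases Int.natAbs_eq c with h2 | h2
      · have : ((c.natAbs : ℕ) : D) = (c : D) := by
          conv_rhs => rw [h2]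
          rw [Int.cast_natCast]
        rw [this]
        exact h5
      · have : ((c.natAbs : ℕ) : D) = -(c : D) := by
          conv_rhs => rw [h2]
          rw [Int.cast_neg, Int.cast_natCast, neg_neg]
        rw [this]
        exact neg_mem h5
    exact Int.not_isField (isField_of_isIntegral_of_isField h4 (Field.toIsField _))
  obtain ⟨M, hM, hle⟩ := Ideal.exists_le_maximal q.asIdeal q.isPrime.ne_top
  have hlt : q < ⟨M, hM.isPrime⟩ := by
    refine lt_of_le_of_ne hle ?_
    intro h
    apply hmax
    rw [h]
    exact hM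
  refine ⟨l'.snoc ⟨M, hM.isPrime⟩ hlt, ?_⟩
  rw [RelSeries.snoc_length]
  exact congrArg (· + 1) hl

theorem lower (D K : Type) [CommRing D] [IsDomain D] [Algebra.FiniteType ℤ D] [Field K]
    [Algebra D K] [IsFractionRing D K] {ι : Type} [Fintype ι] (z : ι → K)
    (hz : ∀ Q : MvPolynomial ι ℤ, aeval z Q = 0 → ∀ m, ((coeff m Q : ℤ) : D) = 0) :
    ((Fintype.card ι + eps (⊥ : Ideal D) : ℕ) : WithBot ℕ∞) ≤ ringKrullDim D := by
  have hinj : Function.Injective (algebraMap D K) := IsFractionRing.injective D K
  by_cases he : eps (⊥ : Ideal D) = 0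
  · obtain ⟨p, hp, hpD⟩ := eps_prime (q := (⊥ : Ideal D)) Ideal.isPrime_bot he
    rw [Ideal.mem_bot] at hpD
    have : Fact p.Prime := ⟨hp⟩
    have hcD : CharP D p := (CharP.charP_iff_prime_eq_zero hp).mpr hpD
    have hcK : CharP K p := (CharP.charP_iff_prime_eq_zero hp).mpr (by
      rw [← map_natCast (algebraMap D K), hpD, map_zero])
    let _ : Algebra (ZMod p) D := ZMod.algebra D p
    let _ : Algebra (ZMod p) K := ZMod.algebra K p
    have hT : IsScalarTower (ZMod p) D K := IsScalarTower.of_algebraMap_eq (fun x => by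
      have : (algebraMap (ZMod p) K) = (algebraMap D K).comp (algebraMap (ZMod p) D) :=
        Subsingleton.elim _ _
      rw [this]
      rfl)
    have hft : Algebra.FiniteType (ZMod p) D := Algebra.FiniteType.of_restrictScalars_finiteType ℤ _ _
    have hai : AlgebraicIndependent (ZMod p) z := by
      rw [algebraicIndependent_iff]
      intro Q' hQ'
      obtain ⟨Q, rfl⟩ := MvPolynomial.map_surjective (Int.castRingHom (ZMod p))
        (ZMod.ringHom_surjective _) Q'
      have h1 : aeval z Q = 0 := by
        have h2 : (Int.castRingHom (ZMod p)) = algebraMap ℤ (ZMod p) := rfl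
        rw [h2, aeval_map_algebraMap] at hQ'
        exact hQ'
      ext m
      rw [coeff_map, coeff_zero]
      have h3 := hz Q h1 m
      rw [CharP.intCast_eq_zero_iff D p] at h3
      exact (CharP.intCast_eq_zero_iff (ZMod p) p _).mpr h3
    have h4 := hai.lift_cardinalMk_le_trdeg
    rw [he, add_zero]
    refine fld (ZMod p) D K _ ?_
    simpa using h4
  · have he1 : eps (⊥ : Ideal D) = 1 := by
      have := eps_le_one (⊥ : Ideal D)
      omega
    have hcD : CharZero D := by
      refine charZero_of_injective_algebraMap (R := ℤ) ?_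
      rw [injective_iff_map_eq_zero]
      intro c hc
      refine int_zero he1 ?_
      rw [Ideal.mem_bot]
      simpa using hc
    have hcK : CharZero K := charZero_of_injective_algebraMap hinj
    let E : Subalgebra ℚ K := Algebra.adjoin ℚ (Set.range (algebraMap D K))
    let f : D →+* E := (algebraMap D K).codRestrict E (fun a => Algebra.subset_adjoin ⟨a, rfl⟩)
    have hfx : ∀ a, ((f a : E) : K) = algebraMap D K a := fun _ => rfl
    have hE : ∀ n : ℕ, 0 < n → IsUnit (n : E) := by
      intro n hn
      refine IsUnit.of_mul_eq_one (algebraMap ℚ E ((n : ℚ)⁻¹)) ?_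
      have h1 : (n : E) = algebraMap ℚ E (n : ℚ) := by simp
      rw [h1, ← map_mul, mul_inv_cancel₀ (by exact_mod_cast hn.ne'), map_one]
    have hf : ∀ x : E, ∃ n : ℕ, 0 < n ∧ ∃ a : D, (n : E) * x = f a := by
      rintro ⟨x, hx⟩
      have key : ∃ n : ℕ, 0 < n ∧ ∃ a : D, (n : K) * x = algebraMap D K a := by
        induction hx using Algebra.adjoin_induction with
        | mem x hx =>
          obtain ⟨a, rfl⟩ := hx
          exact ⟨1, one_pos, a, by simp⟩
        | algebraMap r =>
          refine ⟨r.den, r.den_pos, (r.num : D), ?_⟩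
          rw [map_intCast, eq_ratCast]
          have h2 : ((r.den : ℚ) : K) * (r : K) = ((r.num : ℚ) : K) := by
            rw [← Rat.cast_mul]
            congr 1
            rw [mul_comm]
            exact Rat.mul_den_eq_num r
          simpa using h2
        | add x y hx hy ihx ihy =>
          obtain ⟨n, hn, a, ha⟩ := ihx
          obtain ⟨m, hm, b, hb⟩ := ihy
          refine ⟨n * m, Nat.mul_pos hn hm, m * a + n * b, ?_⟩
          rw [map_add, map_mul, map_mul, ← ha, ← hb, map_natCast, map_natCast]
          push_cast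
          ring
        | mul x y hx hy ihx ihy =>
          obtain ⟨n, hn, a, ha⟩ := ihx
          obtain ⟨m, hm, b, hb⟩ := ihy
          refine ⟨n * m, Nat.mul_pos hn hm, a * b, ?_⟩
          rw [map_mul, ← ha, ← hb]
          push_cast
          ring
      obtain ⟨n, hn, a, ha⟩ := key
      exact ⟨n, hn, a, Subtype.ext ha⟩
    have hfr : IsFractionRing E K := by
      refine IsFractionRing.of_field E K ?_
      intro z
      obtain ⟨a, b, hb, rfl⟩ := IsFractionRing.div_surjective (A := D) z
      exact ⟨f a, f b, rfl⟩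
    have hft : Algebra.FiniteType ℚ E := by
      obtain ⟨S, hS⟩ := (inferInstance : Algebra.FiniteType ℤ D).out
      have h1 : E = Algebra.adjoin ℚ ((algebraMap D K) '' (S : Set D)) := by
        apply le_antisymm
        · rw [Algebra.adjoin_le_iff]
          rintro _ ⟨a, rfl⟩
          have ha : a ∈ Algebra.adjoin ℤ (S : Set D) := by
            rw [hS]
            trivial
          change algebraMap D K a ∈ Algebra.adjoin ℚ ((algebraMap D K) '' (S : Set D))
          induction ha using Algebra.adjoin_induction with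
          | mem x hx => exact Algebra.subset_adjoin ⟨x, hx, rfl⟩
          | algebraMap r =>
            have : algebraMap D K (algebraMap ℤ D r) = algebraMap ℚ K (r : ℚ) := by simp
            rw [this]
            exact Subalgebra.algebraMap_mem _ _
          | add x y _ _ ihx ihy =>
            rw [map_add]
            exact add_mem ihx ihy
          | mul x y _ _ ihx ihy =>
            rw [map_mul]
            exact mul_mem ihx ihy
        · apply Algebra.adjoin_mono
          rintro _ ⟨a, _, rfl⟩
          exact ⟨a, rfl⟩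
      rw [h1]
      exact .adjoin_of_finite (Set.Finite.image _ S.finite_toSet)
    have hai : AlgebraicIndependent ℤ z := by
      rw [algebraicIndependent_iff]
      intro Q hQ
      ext m
      rw [coeff_zero]
      have h3 := hz Q hQ m
      exact_mod_cast h3
    have h4 := hai.lift_cardinalMk_le_trdeg
    have h5 : Algebra.trdeg ℤ ℚ + Algebra.trdeg ℚ K = Algebra.trdeg ℤ K := _root_.trdeg_add_eq _ _
    have h6 : Algebra.IsAlgebraic ℤ ℚ := IsLocalization.isAlgebraic (S := ℚ) (nonZeroDivisors ℤ)
    rw [_root_.trdeg_eq_zero, zero_add] at h5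
    rw [← h5] at h4
    rw [he1]
    refine dim_succ f hE hf _ ?_
    refine fld ℚ E K _ ?_
    simpa using h4

end Pool.Agent.E8helper74.BG
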